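import Pool.Agent.H16.ZW.Targets

/-!
Board zw_modules, row TIE: solutions of linear differential equations with constant coefficients.
-/

namespace Pool.Agent.H74.ZW

open Pool.Agent.H16.ZW

/-- polynomial solutions of `e z + z' = q` -/
theorem poly_sol {K : Type} [Field K] [CharZero K] (e : K) (q : Polynomial K) :
    ∃ z : Polynomial K, Polynomial.derivative z + Polynomial.C e * z = q := by
  rcases eq_or_ne e 0 with rfl | he
  · induction q using Polynomial.induction_on' with
    | add p q hp hq =>
      obtain ⟨z, hz⟩ := hp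
      obtain ⟨w, hw⟩ := hq
      refine ⟨z + w, ?_⟩
      rw [← hz, ← hw, map_add]
      ring
    | monomial n a =>
      refine ⟨Polynomial.monomial (n + 1) (a / ((n : K) + 1)), ?_⟩
      have hn : (n : K) + 1 ≠ 0 := by exact_mod_cast Nat.succ_ne_zero n
      rw [Polynomial.derivative_monomial]
      simp only [Nat.cast_add, Nat.cast_one, add_tsub_cancel_right, map_zero, zero_mul, add_zero]
      rw [div_mul_cancel₀ _ hn]
  · have key : ∀ n : ℕ, ∀ q : Polynomial K, Polynomial.derivative^[n] q = 0 →
        ∃ z : Polynomial K, Polynomial.derivative z + Polynomial.C e * z = q := by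
      intro n
      induction n with
      | zero =>
        intro q hq
        refine ⟨0, ?_⟩
        simpa using hq.symm
      | succ n ih =>
        intro q hq
        rw [Function.iterate_succ_apply] at hq
        obtain ⟨w, hw⟩ := ih _ hq
        refine ⟨Polynomial.C e⁻¹ * (q - w), ?_⟩
        have h1 : Polynomial.C e * Polynomial.C e⁻¹ = (1 : Polynomial K) := by
          rw [← Polynomial.C_mul, mul_inv_cancel₀ he, Polynomial.C_1]
        rw [Polynomial.derivative_C_mul, map_sub]
        linear_combination (Polynomial.C e⁻¹) * (-hw) + (q) * h1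
    exact key _ q (Polynomial.iterate_derivative_eq_zero (Nat.lt_succ_self q.natDegree))

/-- solutions of `z' - β z = x` in the ring of formal exponential polynomials -/
theorem ee_sol {K : Type} [Field K] [CharZero K] (β : K) (x : EE K) :
    ∃ z : EE K, ∀ b, Polynomial.derivative (z.coeff b) + Polynomial.C (b - β) * z.coeff b =
      x.coeff b := by
  classical
  choose s hs using fun (b : K) => poly_sol (b - β) (x.coeff b)
  refine ⟨.ofCoeff (Finsupp.onFinset x.coeff.support
    (fun b => if x.coeff b = 0 then 0 else s b) ?_), ?_⟩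
  · intro b hb
    rw [Finsupp.mem_support_iff]
    intro h
    apply hb
    rw [if_pos h]
  · intro b
    show Polynomial.derivative (if x.coeff b = 0 then 0 else s b) +
      Polynomial.C (b - β) * (if x.coeff b = 0 then 0 else s b) = x.coeff b
    by_cases h : x.coeff b = 0
    · rw [if_pos h, h]
      simp
    · rw [if_neg h]
      exact hs b

theorem step_range {K : Type} [Field K] [CharZero K] (hE : T_EE) (hX : T_EXQ) (β : K)
    (y : PowerSeries K) (x : EE K)
    (h : PowerSeries.derivative K y - PowerSeries.C β * y = ii K x) :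
    ∃ T : EE K, ii K T = y := by
  obtain ⟨h1, h2, h3, h4, h5, h6, h7, h8⟩ := hE K
  obtain ⟨z, hz⟩ := ee_sol β x
  have hDz : DD z - AddMonoidAlgebra.single 0 (Polynomial.C β) * z = x := by
    refine AddMonoidAlgebra.ext (Finsupp.ext fun b => ?_)
    rw [AddMonoidAlgebra.coeff_sub]
    have e1 : (AddMonoidAlgebra.single 0 (Polynomial.C β) * z).coeff b =
        Polynomial.C β * z.coeff b := by
      rw [AddMonoidAlgebra.coeff_single_zero_mul]
    rw [Finsupp.sub_apply, e1, ← hz b]
    show Polynomial.derivative (z.coeff b) + Polynomial.C b * z.coeff b - _ = _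
    rw [map_sub]
    ring
  have hu : PowerSeries.derivative K (y - ii K z) = PowerSeries.C β * (y - ii K z) := by
    have h9 := congrArg (ii K) hDz
    rw [map_sub, map_mul, h6, ← h3] at h9
    rw [map_sub]
    linear_combination h - h9
  set c := PowerSeries.constantCoeff (y - ii K z) with hc
  have heq : y - ii K z = PowerSeries.C c * ee β := by
    refine (hX K (PowerSeries.C β) c).unique ⟨hu, hc.symm⟩ ⟨?_, ?_⟩
    · rw [Derivation.leibniz, PowerSeries.derivative_C, h7]
      simp only [smul_eq_mul]
      ring
    · rw [map_mul, h8, mul_one, PowerSeries.constantCoeff_C]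
  refine ⟨z + AddMonoidAlgebra.single 0 (Polynomial.C c) * AddMonoidAlgebra.single β 1, ?_⟩
  rw [map_add, map_mul, h6, h5, ← heq]
  ring

/-- the power series `a exp(B s) b` -/
noncomputable def yy {K : Type} [Field K] {m : ℕ} (B : Matrix (Fin m) (Fin m) K)
    (b : Fin m → K) (a : Fin m → K) : PowerSeries K :=
  PowerSeries.mk (fun n => (a ⬝ᵥ (B ^ n).mulVec b) / (n.factorial : K))

theorem yy_deriv {K : Type} [Field K] [CharZero K] {m : ℕ} (B : Matrix (Fin m) (Fin m) K)
    (b : Fin m → K) (a : Fin m → K) :
    PowerSeries.derivative K (yy B b a) = yy B b (Matrix.vecMul a B) := by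
  ext n
  rw [PowerSeries.coeff_derivative, yy, yy, PowerSeries.coeff_mk, PowerSeries.coeff_mk,
    pow_succ', ← Matrix.mulVec_mulVec, Matrix.dotProduct_mulVec, Nat.factorial_succ]
  have h1 : ((n : K) + 1) ≠ 0 := by exact_mod_cast Nat.succ_ne_zero n
  have h2 : (n.factorial : K) ≠ 0 := by exact_mod_cast Nat.factorial_ne_zero n
  push_cast
  field_simp

theorem yy_sub {K : Type} [Field K] {m : ℕ} (B : Matrix (Fin m) (Fin m) K)
    (b : Fin m → K) (a : Fin m → K) (β : K) :
    yy B b (Matrix.vecMul a (B - algebraMap K _ β)) =
      yy B b (Matrix.vecMul a B) - PowerSeries.C β * yy B b a := by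
  ext n
  rw [map_sub, PowerSeries.coeff_C_mul, yy, yy, yy, PowerSeries.coeff_mk, PowerSeries.coeff_mk,
    PowerSeries.coeff_mk, Matrix.vecMul_sub, sub_dotProduct, Algebra.algebraMap_eq_smul_one,
    Matrix.vecMul_smul, Matrix.vecMul_one, smul_dotProduct, smul_eq_mul]
  ring

theorem tie (hE : T_EE) (hX : T_EXQ) : T_TIE := by
  intro K _ _ _ m B a b
  have key : ∀ (l : List K) (a : Fin m → K),
      (∃ T : EE K, ii K T = yy B b (Matrix.vecMul a
        (l.map (fun β => B - algebraMap K (Matrix (Fin m) (Fin m) K) β)).prod)) →
      ∃ T : EE K, ii K T = yy B b a := by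
    intro l
    induction l with
    | nil =>
      intro a h
      simpa using h
    | cons β l ih =>
      intro a h
      rw [List.map_cons, List.prod_cons, ← Matrix.vecMul_vecMul] at h
      obtain ⟨x, hx⟩ := ih _ h
      refine step_range hE hX β (yy B b a) x ?_
      rw [hx, yy_sub, yy_deriv]
  obtain ⟨T, hT⟩ := key (B.charpoly.roots.toList) a ⟨0, by
    have h1 : Polynomial.aeval B (B.charpoly.roots.toList.map
        (fun β => (Polynomial.X - Polynomial.C β : Polynomial K))).prod = 0 := by
      have h2 : (B.charpoly.roots.toList.map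
        (fun β => (Polynomial.X - Polynomial.C β : Polynomial K))).prod = B.charpoly := by
        conv_rhs => rw [(IsAlgClosed.splits B.charpoly).eq_prod_roots_of_monic
          B.charpoly_monic]
        rw [← Multiset.prod_coe, ← Multiset.map_coe, Multiset.coe_toList]
      rw [h2]
      exact Matrix.aeval_self_charpoly B
    rw [map_list_prod, List.map_map] at h1
    have h3 : (Polynomial.aeval B ∘ fun β => (Polynomial.X - Polynomial.C β : Polynomial K)) =
        fun β => B - algebraMap K (Matrix (Fin m) (Fin m) K) β := by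
      funext β
      simp
    rw [h3] at h1
    rw [h1, Matrix.vecMul_zero, map_zero]
    ext n
    simp [yy]⟩
  exact ⟨T, hT⟩

end Pool.Agent.H74.ZW
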