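import Pool.Agent.H16.ZW.Targets

/-!
Board zw_modules, row VG: value groups of number fields.
-/

namespace Pool.Agent.H74.ZW

open Pool.Agent.H16.ZW
open Pool.Agent.H12.ZD

theorem v_ratCast (p : Nat.Primes) (q : ℚ) : v p (q : Qb) = ‖(q : ℚ_[(p : ℕ)])‖ := by
  rw [v, map_ratCast]
  have : ((q : ℚ_[(p : ℕ)]) : PadicAlgCl p) = (q : PadicAlgCl p) := by
    exact map_ratCast (algebraMap ℚ_[(p : ℕ)] (PadicAlgCl p)) q
  rw [← this, PadicAlgCl.norm_extends]

theorem v_ratCast_zpow (p : Nat.Primes) {q : ℚ} (hq : q ≠ 0) :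
    ∃ z : ℤ, v p (q : Qb) = ((p : ℕ) : ℝ) ^ z := by
  refine ⟨-(q : ℚ_[(p : ℕ)]).valuation, ?_⟩
  rw [v_ratCast]
  exact Padic.norm_eq_zpow_neg_valuation (by exact_mod_cast hq)

theorem v_rel (p : Nat.Primes) (x : Qb) (hx : x ≠ 0) (P : Polynomial ℚ) (hP : P ≠ 0)
    (h : Polynomial.aeval x P = 0) :
    ∃ k : ℕ, 1 ≤ k ∧ k ≤ P.natDegree ∧ ∃ z : ℤ, v p x ^ k = ((p : ℕ) : ℝ) ^ z := by
  classical
  have hv : 0 < v p x := (v_pos p).mpr hx
  set n := P.natDegree with hn
  set t : ℕ → Qb := fun i => (P.coeff i : Qb) * x ^ i with ht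
  have hsum : ∑ i ∈ Finset.range (n + 1), t i = 0 := by
    rw [Polynomial.aeval_eq_sum_range] at h
    rw [← h]
    refine Finset.sum_congr rfl fun i _ => ?_
    rw [ht, Algebra.smul_def, eq_ratCast]
  obtain ⟨i, hi, hmax⟩ := Finset.exists_max_image (Finset.range (n + 1)) (fun i => v p (t i))
    ⟨0, by simp⟩
  have hpos : 0 < v p (t i) := by
    refine lt_of_lt_of_le ?_ (hmax n (by simp))
    rw [v_pos]
    refine mul_ne_zero ?_ (pow_ne_zero _ hx)
    have : P.coeff n ≠ 0 := by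
      rw [hn]
      exact Polynomial.leadingCoeff_ne_zero.mpr hP
    exact_mod_cast this
  have hex : ∃ j ∈ Finset.range (n + 1), j ≠ i ∧ v p (t j) = v p (t i) := by
    by_contra hcon
    push Not at hcon
    have h1 : v p (∑ j ∈ (Finset.range (n + 1)).erase i, t j) < v p (t i) := by
      refine v_sum_lt p _ _ hpos fun j hj => ?_
      rw [Finset.mem_erase] at hj
      exact lt_of_le_of_ne (hmax j hj.2) (hcon j hj.2 hj.1)
    have h2 : ∑ j ∈ (Finset.range (n + 1)).erase i, t j = - t i := by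
      rw [← Finset.add_sum_erase _ _ hi] at hsum
      linear_combination hsum
    rw [h2, v_neg] at h1
    exact lt_irrefl _ h1
  obtain ⟨j, hj, hji, hvj⟩ := hex
  rw [Finset.mem_range] at hi hj
  -- the general statement for `a < b`
  have key : ∀ a b : ℕ, a < b → b ≤ n → 0 < v p (t a) → v p (t a) = v p (t b) →
      ∃ k : ℕ, 1 ≤ k ∧ k ≤ n ∧ ∃ z : ℤ, v p x ^ k = ((p : ℕ) : ℝ) ^ z := by
    intro a b hab hb h0 he
    have ha0 : P.coeff a ≠ 0 := by
      intro h
      rw [ht] at h0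
      simp [h] at h0
    have hb0 : P.coeff b ≠ 0 := by
      intro h
      rw [he, ht] at h0
      simp [h] at h0
    obtain ⟨za, hza⟩ := v_ratCast_zpow p ha0
    obtain ⟨zb, hzb⟩ := v_ratCast_zpow p hb0
    refine ⟨b - a, by omega, by omega, za - zb, ?_⟩
    have hp0 : ((p : ℕ) : ℝ) ≠ 0 := by exact_mod_cast p.2.ne_zero
    rw [ht] at he
    simp only [v_mul, v_pow, hza, hzb] at he
    have hb' : b = (b - a) + a := by omega
    rw [hb', pow_add, ← mul_assoc] at he
    have h3 := mul_right_cancel₀ (pow_ne_zero a hv.ne') he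
    rw [zpow_sub₀ hp0, h3]
    field_simp
  rcases lt_or_gt_of_ne hji with h | h
  · exact key j i h (by omega) (hvj ▸ hpos) hvj
  · exact key i j h (by omega) hpos hvj.symm

theorem vg : T_VG := by
  intro N c
  set F := IntermediateField.adjoin ℚ (Set.range c) with hF
  have : FiniteDimensional ℚ F := by
    refine IntermediateField.finiteDimensional_adjoin ?_
    intro x _
    exact (Algebra.IsAlgebraic.isAlgebraic x).isIntegral
  refine ⟨(Module.finrank ℚ F).factorial, Nat.succ_le_of_lt (Nat.factorial_pos _), ?_⟩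
  intro p x hxF hx
  set y : F := ⟨x, hxF⟩ with hy
  have hint : IsIntegral ℚ y := IsIntegral.of_finite ℚ y
  obtain ⟨k, hk1, hk2, z, hz⟩ := v_rel p x hx (minpoly ℚ y) (minpoly.ne_zero hint) (by
    have h1 := minpoly.aeval ℚ y
    have h2 := congrArg (algebraMap F Qb) h1
    rw [← Polynomial.aeval_algebraMap_apply, map_zero] at h2
    exact h2)
  have hk3 : k ≤ Module.finrank ℚ F := hk2.trans (minpoly.natDegree_le y)
  obtain ⟨e, he⟩ : k ∣ (Module.finrank ℚ F).factorial := Nat.dvd_factorial hk1 hk3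
  refine ⟨z * e, ?_⟩
  rw [he, pow_mul, hz, zpow_mul, zpow_natCast]

end Pool.Agent.H74.ZW
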